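import Pool.Agent.Lib_MP_f019fe_c.Cx

set_option autoImplicit false

/-! Basic facts on the ball model of complex hyperbolic space (for `MP_f019fe_gt`). -/

namespace Pool.Agent.CExotic

abbrev Hq := ℂ

/-- The standard hermitian product, conjugate linear on the left. -/
noncomputable def ip {ι : Type*} [Fintype ι] (x y : ι → Hq) : Hq := ∑ i, star (x i) * y i

/-- `h(x,y) = 1 - ⟨x,y⟩`. -/
noncomputable def hf {ι : Type*} [Fintype ι] (x y : ι → Hq) : Hq := 1 - ∑ i, star (x i) * y i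

noncomputable def nn {ι : Type*} [Fintype ι] (x : ι → Hq) : ℝ := ∑ i, ‖x i‖ ^ 2

noncomputable def dl {ι : Type*} [Fintype ι] (x : ι → Hq) : ℝ := 1 - ∑ i, ‖x i‖ ^ 2

noncomputable def Kf (q : ℝ) : ℝ := Real.arsinh (Real.sqrt (q - 1))

noncomputable def Dq {ι : Type*} [Fintype ι] (x y : ι → Hq) : ℝ := Kf (‖hf x y‖ ^ 2 / (dl x * dl y))

/-! ### The function `Kf` -/

theorem Kf_mono {q q' : ℝ} (h : q ≤ q') : Kf q ≤ Kf q' :=
  Real.arsinh_le_arsinh.2 (Real.sqrt_le_sqrt (by linarith))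

theorem Kf_nonneg (q : ℝ) : 0 ≤ Kf q := Real.arsinh_nonneg_iff.2 (Real.sqrt_nonneg _)

theorem exp_Kf {q : ℝ} (h : 1 ≤ q) : Real.exp (Kf q) = Real.sqrt (q - 1) + Real.sqrt q := by
  unfold Kf
  rw [Real.exp_arsinh, Real.sq_sqrt (by linarith)]
  ring_nf

theorem Kf_le_add {q q' : ℝ} (h1 : 1 ≤ q) (h : q' ≤ 4 * q) : Kf q' ≤ Kf q + Real.log 4 := by
  have hm : Kf q' ≤ Kf (4 * q) := Kf_mono h
  refine hm.trans ?_
  have h2 : Real.exp (Kf (4 * q)) ≤ Real.exp (Kf q + Real.log 4) := by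
    rw [Real.exp_add, Real.exp_log (by norm_num), exp_Kf h1, exp_Kf (by linarith)]
    have a1 : Real.sqrt (4 * q - 1) ≤ Real.sqrt (4 * q) := Real.sqrt_le_sqrt (by linarith)
    have a2 : Real.sqrt (4 * q) = 2 * Real.sqrt q := by
      rw [show (4 : ℝ) * q = 2 ^ 2 * q by ring, Real.sqrt_mul (by positivity),
        Real.sqrt_sq (by norm_num)]
    have a3 := Real.sqrt_nonneg (q - 1)
    rw [a2] at a1 ⊢
    linarith
  exact Real.exp_le_exp.1 h2

theorem le_of_Kf_le {q R : ℝ} (h : Kf q ≤ R) : q ≤ 1 + Real.sinh R ^ 2 := by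
  unfold Kf at h
  have h1 : Real.sqrt (q - 1) ≤ Real.sinh R := by
    rw [← Real.sinh_arsinh (Real.sqrt (q - 1))]
    exact Real.sinh_le_sinh.2 h
  rcases le_total q 1 with hq | hq
  · nlinarith [sq_nonneg (Real.sinh R)]
  · have h2 : q - 1 = Real.sqrt (q - 1) ^ 2 := (Real.sq_sqrt (by linarith)).symm
    have h3 := Real.sqrt_nonneg (q - 1)
    nlinarith

theorem Kf_inj {q q' : ℝ} (h1 : 1 ≤ q) (h1' : 1 ≤ q') (h : Kf q = Kf q') : q = q' := by
  unfold Kf at h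
  have h2 := Real.arsinh_injective h
  have h3 := (Real.sqrt_inj (by linarith) (by linarith)).1 h2
  linarith

/-! ### Inequalities for the hermitian product -/

theorem re_sum {κ : Type*} (s : Finset κ) (f : κ → Hq) :
    (∑ i ∈ s, f i).re = ∑ i ∈ s, (f i).re := by
  classical
  induction s using Finset.induction_on with
  | empty => rfl
  | insert a s ha ih => rw [Finset.sum_insert ha, Finset.sum_insert ha, Cx.re_add, ih]

theorem re_star_mul (a b : Hq) : (star a * b).re = (‖a‖ ^ 2 + ‖b‖ ^ 2 - ‖a - b‖ ^ 2) / 2 := by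
  have h1 : ‖a‖ ^ 2 = Cx.normSq a := by rw [Cx.normSq_eq_norm_mul_self, sq]
  have h2 : ‖b‖ ^ 2 = Cx.normSq b := by rw [Cx.normSq_eq_norm_mul_self, sq]
  have h3 : ‖a - b‖ ^ 2 = Cx.normSq (a - b) := by
    rw [Cx.normSq_eq_norm_mul_self, sq]
  rw [h1, h2, h3]
  simp only [Cx.normSq_def', Cx.re_mul, Cx.re_star, Cx.im_star, Cx.re_sub, Cx.im_sub]
  ring

theorem abs_re_le (a : Hq) : |a.re| ≤ ‖a‖ := by
  have h : ‖a‖ ^ 2 = a.re ^ 2 + a.im ^ 2 := by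
    rw [sq, ← Cx.normSq_eq_norm_mul_self, Cx.normSq_def']
  apply abs_le_of_sq_le_sq _ (norm_nonneg a)
  nlinarith [sq_nonneg a.im]

theorem norm_sq_eq (a : Hq) : ‖a‖ ^ 2 = a.re ^ 2 + a.im ^ 2 := by
  rw [sq, ← Cx.normSq_eq_norm_mul_self, Cx.normSq_def']

theorem norm_ip_le {ι : Type*} [Fintype ι] (x y : ι → Hq) :
    ‖∑ i, star (x i) * y i‖ ≤ Real.sqrt (nn x) * Real.sqrt (nn y) := by
  have h1 : ‖∑ i, star (x i) * y i‖ ≤ ∑ i, ‖x i‖ * ‖y i‖ := by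
    refine (norm_sum_le _ _).trans (le_of_eq ?_)
    exact Finset.sum_congr rfl fun i _ => by rw [norm_mul, Cx.norm_star]
  refine h1.trans ?_
  exact Real.sum_mul_le_sqrt_mul_sqrt _ _ _

theorem nn_nonneg {ι : Type*} [Fintype ι] (x : ι → Hq) : 0 ≤ nn x :=
  Finset.sum_nonneg fun _ _ => by positivity

theorem dl_eq {ι : Type*} [Fintype ι] (x : ι → Hq) : dl x = 1 - nn x := rfl

theorem one_sub_le_norm_hf {ι : Type*} [Fintype ι] (x y : ι → Hq) :
    1 - Real.sqrt (nn x) * Real.sqrt (nn y) ≤ ‖hf x y‖ := by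
  have h := norm_ip_le x y
  have h2 : ‖(1 : Hq)‖ - ‖∑ i, star (x i) * y i‖ ≤ ‖hf x y‖ := norm_sub_norm_le _ _
  rw [norm_one] at h2
  linarith

theorem norm_hf_le {ι : Type*} [Fintype ι] (x y : ι → Hq) :
    ‖hf x y‖ ≤ 1 + Real.sqrt (nn x) * Real.sqrt (nn y) := by
  have h := norm_ip_le x y
  have h2 : ‖hf x y‖ ≤ ‖(1 : Hq)‖ + ‖∑ i, star (x i) * y i‖ := norm_sub_le _ _
  rw [norm_one] at h2
  linarith

/-- reversed Cauchy-Schwarz -/
theorem rev_cs {ι : Type*} [Fintype ι] (x y : ι → Hq) (hx : 0 ≤ dl x) (hy : 0 ≤ dl y) :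
    dl x * dl y ≤ ‖hf x y‖ ^ 2 := by
  rw [dl_eq] at hx hy
  rw [dl_eq, dl_eq]
  have hx0 := nn_nonneg x
  have hy0 := nn_nonneg y
  have h := one_sub_le_norm_hf x y
  set a := Real.sqrt (nn x) with ha
  set b := Real.sqrt (nn y) with hb
  have ha2 : nn x = a ^ 2 := (Real.sq_sqrt hx0).symm
  have hb2 : nn y = b ^ 2 := (Real.sq_sqrt hy0).symm
  have ha0 : 0 ≤ a := Real.sqrt_nonneg _
  have hb0 : 0 ≤ b := Real.sqrt_nonneg _
  rw [ha2] at hx ⊢
  rw [hb2] at hy ⊢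
  have ha1 : a ≤ 1 := by nlinarith
  have hb1 : b ≤ 1 := by nlinarith
  have hab : 0 ≤ 1 - a * b := by nlinarith
  have : (1 - a * b) ^ 2 ≤ ‖hf x y‖ ^ 2 := by
    apply pow_le_pow_left₀ hab h
  nlinarith [sq_nonneg (a - b)]

theorem re_hf {ι : Type*} [Fintype ι] (x y : ι → Hq) :
    (hf x y).re = (dl x + dl y + ∑ i, ‖x i - y i‖ ^ 2) / 2 := by
  have h : (∑ i, star (x i) * y i).re = ∑ i, (star (x i) * y i).re := re_sum _ _
  unfold hf
  rw [Cx.re_sub, h]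
  simp only [re_star_mul, dl, Cx.re_one]
  rw [← Finset.sum_div, Finset.sum_sub_distrib, Finset.sum_add_distrib]
  ring

theorem sum_norm_sub_le {ι : Type*} [Fintype ι] (x y : ι → Hq) (hx : 0 ≤ dl x) (hy : 0 ≤ dl y) :
    ∑ i, ‖x i - y i‖ ^ 2 ≤ 2 * ‖hf x y‖ := by
  have h := re_hf x y
  have h2 := (le_abs_self _).trans (abs_re_le (hf x y))
  linarith

/-! ### Siegel coordinates -/

/-- The quaternion `2 (1+w)⁻¹`. -/
noncomputable def Uq (w : Hq) : Hq := (2 : ℝ) • (1 + w)⁻¹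

/-- Point of the ball with Siegel coordinates `(ζ, w)`. -/
noncomputable def sieg {k : ℕ} (ζ : Fin k → Hq) (w : Hq) : Fin (k + 1) → Hq :=
  Fin.snoc (fun i => ζ i * Uq w) (1 - Uq w)

/-- The hermitian product in Siegel coordinates. -/
noncomputable def eta {k : ℕ} (ζ : Fin k → Hq) (w : Hq) (ζ' : Fin k → Hq) (w' : Hq) : Hq :=
  (1 / 2 : ℝ) • (star w + w') - ∑ i, star (ζ i) * ζ' i

theorem Uq_mul {w : Hq} (hw : 1 + w ≠ 0) : Uq w * (1 + w) = (2 : ℝ) • 1 := by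
  unfold Uq; rw [smul_mul_assoc, inv_mul_cancel₀ hw]

theorem mul_Uq {w : Hq} (hw : 1 + w ≠ 0) : (1 + w) * Uq w = (2 : ℝ) • 1 := by
  unfold Uq; rw [mul_smul_comm, mul_inv_cancel₀ hw]

theorem Uq_ne_zero {w : Hq} (hw : 1 + w ≠ 0) : Uq w ≠ 0 :=
  smul_ne_zero two_ne_zero (inv_ne_zero hw)

theorem hf_sieg {k : ℕ} (ζ : Fin k → Hq) (w : Hq) (ζ' : Fin k → Hq) (w' : Hq)
    (hw : 1 + w ≠ 0) (hw' : 1 + w' ≠ 0) :
    hf (sieg ζ w) (sieg ζ' w') = star (Uq w) * eta ζ w ζ' w' * Uq w' := by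
  have h1 : w' * Uq w' = (2 : ℝ) • 1 - Uq w' := by
    have := mul_Uq hw'
    rw [add_mul, one_mul] at this
    exact eq_sub_of_add_eq' this
  have h2 : star (Uq w) * star w = (2 : ℝ) • 1 - star (Uq w) := by
    have := mul_Uq hw
    rw [add_mul, one_mul] at this
    have h3 := congrArg star (eq_sub_of_add_eq' this)
    have hs : star ((2 : ℝ) • (1 : Hq)) = (2 : ℝ) • 1 := by apply Complex.ext <;> simp
    rw [star_mul, star_sub, hs] at h3
    exact h3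
  have h4 : ∑ i, star (ζ i * Uq w) * (ζ' i * Uq w') =
      star (Uq w) * (∑ i, star (ζ i) * ζ' i) * Uq w' := by
    rw [Finset.mul_sum, Finset.sum_mul]
    refine Finset.sum_congr rfl fun i _ => ?_
    rw [star_mul]; simp only [mul_assoc]
  have h5 : star (Uq w) * ((1 / 2 : ℝ) • (star w + w')) * Uq w' =
      (1 / 2 : ℝ) • ((star (Uq w) * star w) * Uq w' + star (Uq w) * (w' * Uq w')) := by
    rw [mul_smul_comm, smul_mul_assoc, mul_add, add_mul]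
    simp only [mul_assoc]
  have h7 : star (Uq w) * eta ζ w ζ' w' * Uq w' =
      star (Uq w) * ((1 / 2 : ℝ) • (star w + w')) * Uq w' -
        star (Uq w) * (∑ i, star (ζ i) * ζ' i) * Uq w' := by
    unfold eta; rw [mul_sub, sub_mul]
  rw [h7, h5, h1, h2]
  unfold hf sieg
  rw [Fin.sum_univ_castSucc]
  simp only [Fin.snoc_castSucc, Fin.snoc_last]
  rw [h4, star_sub, star_one]
  generalize star (Uq w) * (∑ i, star (ζ i) * ζ' i) * Uq w' = S
  simp only [sub_mul, mul_sub, smul_mul_assoc, mul_smul_comm, mul_one, one_mul]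
  module

theorem nn_eq_normSq {ι : Type*} [Fintype ι] (x : ι → Hq) :
    ∑ i, star (x i) * x i = ((nn x : ℝ) : Hq) := by
  unfold nn
  have : ∀ i, star (x i) * x i = ((‖x i‖ ^ 2 : ℝ) : Hq) := by
    intro i
    rw [Cx.star_mul_self, Cx.normSq_eq_norm_mul_self, sq]
  simp only [this]
  exact (map_sum (algebraMap ℝ Hq) _ _).symm

theorem hf_self {ι : Type*} [Fintype ι] (x : ι → Hq) : hf x x = ((dl x : ℝ) : Hq) := by
  unfold hf; rw [nn_eq_normSq, dl_eq]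
  rw [Cx.coe_sub]; rfl

theorem eta_self {k : ℕ} (ζ : Fin k → Hq) (w : Hq) :
    eta ζ w ζ w = ((w.re - nn ζ : ℝ) : Hq) := by
  unfold eta
  rw [nn_eq_normSq, Cx.coe_sub]
  congr 1
  apply Complex.ext <;> simp <;> ring

theorem dl_sieg {k : ℕ} (ζ : Fin k → Hq) (w : Hq) (hw : 1 + w ≠ 0) :
    dl (sieg ζ w) = ‖Uq w‖ ^ 2 * (w.re - nn ζ) := by
  have h := hf_sieg ζ w ζ w hw hw
  rw [hf_self, eta_self] at h
  have h2 : star (Uq w) * ((w.re - nn ζ : ℝ) : Hq) * Uq w =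
      ((‖Uq w‖ ^ 2 * (w.re - nn ζ) : ℝ) : Hq) := by
    rw [mul_assoc, Cx.coe_commutes, ← mul_assoc, Cx.star_mul_self,
      Cx.normSq_eq_norm_mul_self, ← Cx.coe_mul, sq]
  rw [h2] at h
  exact Cx.coe_injective h

theorem re_eta {k : ℕ} (ζ : Fin k → Hq) (w : Hq) (ζ' : Fin k → Hq) (w' : Hq) :
    (eta ζ w ζ' w').re = ((w.re - nn ζ) + (w'.re - nn ζ') + ∑ i, ‖ζ i - ζ' i‖ ^ 2) / 2 := by
  unfold eta
  rw [Cx.re_sub, re_sum]
  simp only [re_star_mul]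
  rw [← Finset.sum_div, Finset.sum_sub_distrib, Finset.sum_add_distrib]
  simp only [Cx.re_smul, Cx.re_add, Cx.re_star, nn, smul_eq_mul]
  ring

/-- Siegel coordinates of a ball point. -/
noncomputable def zt {k : ℕ} (x : Fin (k + 1) → Hq) : Fin k → Hq :=
  fun i => x i.castSucc * (1 - x (Fin.last k))⁻¹

noncomputable def wt {k : ℕ} (x : Fin (k + 1) → Hq) : Hq :=
  (2 : ℝ) • (1 - x (Fin.last k))⁻¹ - 1

theorem one_sub_ne {k : ℕ} {x : Fin (k + 1) → Hq} (hx : 0 < dl x) : 1 - x (Fin.last k) ≠ 0 := by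
  intro h
  have h1 : x (Fin.last k) = 1 := (sub_eq_zero.1 h).symm
  have h2 : ‖x (Fin.last k)‖ ^ 2 ≤ nn x :=
    Finset.single_le_sum (f := fun i => ‖x i‖ ^ 2) (fun _ _ => by positivity) (Finset.mem_univ _)
  rw [h1, norm_one] at h2
  rw [dl_eq] at hx
  linarith

theorem one_add_wt {k : ℕ} {x : Fin (k + 1) → Hq} (hx : 0 < dl x) : 1 + wt x ≠ 0 := by
  have h : 1 + wt x = (2 : ℝ) • (1 - x (Fin.last k))⁻¹ := by unfold wt; abel
  rw [h]
  exact smul_ne_zero two_ne_zero (inv_ne_zero (one_sub_ne hx))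

theorem Uq_wt {k : ℕ} (x : Fin (k + 1) → Hq) :
    Uq (wt x) = 1 - x (Fin.last k) := by
  have h : 1 + wt x = (2 : ℝ) • (1 - x (Fin.last k))⁻¹ := by unfold wt; abel
  unfold Uq
  rw [h, smul_inv₀, inv_inv, smul_smul]
  norm_num

theorem sieg_zt {k : ℕ} {x : Fin (k + 1) → Hq} (hx : 0 < dl x) : sieg (zt x) (wt x) = x := by
  unfold sieg
  rw [Uq_wt x]
  ext1 i
  refine Fin.lastCases ?_ (fun j => ?_) i
  · rw [Fin.snoc_last]; abel
  · rw [Fin.snoc_castSucc]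
    unfold zt
    rw [mul_assoc, inv_mul_cancel₀ (one_sub_ne hx), mul_one]

theorem zt_sieg {k : ℕ} (ζ : Fin k → Hq) (w : Hq) (hw : 1 + w ≠ 0) : zt (sieg ζ w) = ζ := by
  ext1 i
  unfold zt sieg
  rw [Fin.snoc_castSucc, Fin.snoc_last, sub_sub_cancel, mul_assoc,
    mul_inv_cancel₀ (Uq_ne_zero hw), mul_one]

theorem wt_sieg {k : ℕ} (ζ : Fin k → Hq) (w : Hq) : wt (sieg ζ w) = w := by
  unfold wt sieg
  rw [Fin.snoc_last, sub_sub_cancel]
  unfold Uq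
  rw [smul_inv₀, inv_inv, smul_smul]
  norm_num

theorem one_add_ne {w : Hq} (hw : 0 ≤ w.re) : 1 + w ≠ 0 := by
  intro h
  have := congrArg (fun q : Hq => q.re) h
  simp only [Cx.re_add, Cx.re_one] at this
  have h0 : (0 : Hq).re = 0 := rfl
  rw [h0] at this
  linarith

end Pool.Agent.CExotic
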