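import Pool.Agent.Lib_MP_f019fe_c.Span

set_option autoImplicit false

/-! The contradictions. -/

namespace Pool.Agent.CExotic

/-- projection of `Q` on the orthogonal of `P, O` -/
noncomputable def xi {n : ℕ} (P O Q : (Fin n → Hq) × Hq) : (Fin n → Hq) × Hq :=
  Q - rm P (form O Q) - O

theorem form_P_xi {n : ℕ} {P O Q : (Fin n → Hq) × Hq} (hP : form P P = 0) (hPO : form P O = 1)
    (hPQ : form P Q = 1) : form P (xi P O Q) = 0 := by
  unfold xi; rw [form_sub_right, form_sub_right, form_rm_right, hP, hPO, hPQ]; simp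

theorem form_O_xi {n : ℕ} {P O Q : (Fin n → Hq) × Hq} (hO : form O O = 0) (hPO : form P O = 1) :
    form O (xi P O Q) = 0 := by
  have hOP : form O P = 1 := by rw [← star_form, hPO, star_one]
  unfold xi; rw [form_sub_right, form_sub_right, form_rm_right, hO, hOP]; simp

theorem form_xi_xi {n : ℕ} {P O Q Q' : (Fin n → Hq) × Hq} (hP : form P P = 0)
    (hO : form O O = 0) (hPO : form P O = 1) (hPQ : form P Q = 1) (hPQ' : form P Q' = 1) :
    form (xi P O Q) (xi P O Q') = form Q Q' - form O Q' - star (form O Q) := by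
  have h1 : form (xi P O Q) (xi P O Q') = form Q (xi P O Q') := by
    conv_lhs => unfold xi
    rw [form_sub_left, form_sub_left, form_rm_left]
    have e1 : form P (Q' - rm P (form O Q') - O) = 0 := form_P_xi hP hPO hPQ'
    have e2 : form O (Q' - rm P (form O Q') - O) = 0 := form_O_xi hO hPO
    rw [e1, e2]
    simp [xi]
  have hQP : form Q P = 1 := by rw [← star_form, hPQ, star_one]
  rw [h1]
  unfold xi
  rw [form_sub_right, form_sub_right, form_rm_right, hQP, one_mul, ← star_form O Q]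

/-! ### The case `n = 1` -/

noncomputable def psi0 (m : ℕ) : (Fin m → Hq) → Hq → ℝ := fun _ w => Real.sqrt ‖w‖

theorem no_vec_zero : ¬ HasVec (psi0 0) := by
  rintro ⟨P, Q, hP, hQ, hPQ, hrel⟩
  set Z : Fin 0 → Hq := fun _ => 0
  set O := Q Z 0 with hOdef
  have hO : form O O = 0 := hQ _ _
  have hPO : form P O = 1 := hPQ _ _
  have hx0 : ∀ s, xi P O (Q Z s) = 0 := by
    intro s
    obtain ⟨c, hc⟩ := exists_comb (ξ := fun l : Fin 0 × Fin 2 => l.1.elim0) hP hO hPO
      (fun l => l.1.elim0) (fun l => l.1.elim0) (fun l => l.1.elim0)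
      (form_P_xi hP hPO (hPQ Z s)) (form_O_xi (Q := Q Z s) hO hPO)
    rw [hc]
    exact Finset.sum_eq_zero fun l _ => l.1.elim0
  have key : form (Q Z 1) (Q Z 4) = form O (Q Z 4) + star (form O (Q Z 1)) := by
    have h := form_xi_xi hP hO hPO (hPQ Z 1) (hPQ Z 4)
    rw [hx0 1, hx0 4] at h
    have h0 : form (0 : (Fin (0 + 1) → Hq) × Hq) 0 = 0 := by simp [form]
    rw [h0] at h
    have h' : form (Q Z 1) (Q Z 4) - (form O (Q Z 4) + star (form O (Q Z 1))) = 0 := by
      rw [← sub_sub]; exact h.symm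
    exact sub_eq_zero.1 h'
  have hw : ∀ s : ℝ, wb Z s = ⟨0, s⟩ := by
    intro s; unfold wb nn; simp
  have hwn : ∀ s : ℝ, 0 ≤ s → ‖wb Z s‖ = s := by
    intro s hs
    have : ‖wb Z s‖ ^ 2 = s ^ 2 := by rw [norm_sq_eq, hw]; simp
    exact (pow_left_inj₀ (norm_nonneg _) hs two_ne_zero).1 this
  have heta : ∀ s t : ℝ, 0 ≤ s → 0 ≤ t → ‖form (Q Z s) (Q Z t)‖ ^ 2 =
      ((Real.sqrt s - Real.sqrt t) ^ 2 / 2) ^ 2 + ((t - s) / 2) ^ 2 := by
    intro s t hs ht
    rw [hrel, norm_sq_eq]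
    unfold psi0
    rw [hwn s hs, hwn t ht]
    unfold eta
    simp only [Finset.univ_eq_empty, Finset.sum_empty, sub_zero, hw]
    simp [-Complex.ofReal_pow, -Complex.ofReal_div, -Complex.ofReal_sub]
    ring
  have n1 := heta 0 1 le_rfl zero_le_one
  have n4 := heta 0 4 le_rfl (by norm_num)
  have n14 := heta 1 4 zero_le_one (by norm_num)
  have s4 : Real.sqrt 4 = 2 := by
    rw [show (4 : ℝ) = 2 ^ 2 by norm_num]; exact Real.sqrt_sq (by norm_num)
  rw [Real.sqrt_zero, Real.sqrt_one] at n1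
  rw [Real.sqrt_zero, s4] at n4
  rw [Real.sqrt_one, s4] at n14
  norm_num at n1 n4 n14
  rw [key] at n14
  have tri : ‖form O (Q Z 4)‖ ≤ ‖form O (Q Z 4) + star (form O (Q Z 1))‖ + ‖form O (Q Z 1)‖ := by
    have := norm_sub_le (form O (Q Z 4) + star (form O (Q Z 1))) (star (form O (Q Z 1)))
    rw [add_sub_cancel_right, Cx.norm_star] at this
    exact this
  rw [← hOdef] at n1 n4
  set p := ‖form O (Q Z 4)‖
  set q := ‖form O (Q Z 1)‖
  set r := ‖form O (Q Z 4) + star (form O (Q Z 1))‖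
  have hp : 0 ≤ p := norm_nonneg _
  have hq : 0 ≤ q := norm_nonneg _
  have hr : 0 ≤ r := norm_nonneg _
  have h1 : p ^ 2 ≤ (r + q) ^ 2 := pow_le_pow_left₀ hp tri 2
  have h2 : 5 / 2 ≤ r * q := by nlinarith
  have h3 : (r * q) ^ 2 = 5 / 4 := by rw [mul_pow, n14, n1]; norm_num
  nlinarith

end Pool.Agent.CExotic
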