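import Pool.Agent.Lib_MP_f019fe_c.Contra

set_option autoImplicit false

/-! The contradiction for `n ≥ 2`. -/

namespace Pool.Agent.CExotic

noncomputable def psi1 (k : ℕ) : (Fin (k + 1) → Hq) → Hq → ℝ := fun ζ _ => (ζ 0).re

/-- the real quadratic form `q` -/
noncomputable def qX {k : ℕ} (X : Fin (k + 1) → Hq) : ℝ := nn X + (X 0).re ^ 2

noncomputable def BX {k : ℕ} (X Y : Fin (k + 1) → Hq) : Hq :=
  ∑ i, star (X i) * Y i + (((X 0).re * (Y 0).re : ℝ) : Hq)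

theorem BX_self {k : ℕ} (X : Fin (k + 1) → Hq) : BX X X = ((qX X : ℝ) : Hq) := by
  unfold BX qX; rw [nn_eq_normSq, ← Cx.coe_add, sq]

theorem BX_neg {k : ℕ} (X Y : Fin (k + 1) → Hq) : BX (-X) Y = - BX X Y := by
  unfold BX
  simp only [Pi.neg_apply, star_neg, neg_mul, Finset.sum_neg_distrib, Cx.re_neg,
    Cx.coe_neg]
  abel

theorem BX_neg_right {k : ℕ} (X Y : Fin (k + 1) → Hq) : BX X (-Y) = - BX X Y := by
  unfold BX
  simp only [Pi.neg_apply, mul_neg, Finset.sum_neg_distrib, Cx.re_neg,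
    Cx.coe_neg]
  abel

theorem qX_neg {k : ℕ} (X : Fin (k + 1) → Hq) : qX (-X) = qX X := by
  unfold qX nn; simp

theorem eta_psi1 {k : ℕ} (X Y : Fin (k + 1) → Hq) :
    eta X (wb X 0) Y (wb Y 0) +
      (((psi1 k X (wb X 0) - psi1 k Y (wb Y 0)) ^ 2 / 2 : ℝ) : Hq) =
    (((qX X + qX Y) / 2 : ℝ) : Hq) - BX X Y := by
  have h1 : ∀ X : Fin (k + 1) → Hq, wb X 0 = ((nn X : ℝ) : Hq) := fun X => rfl
  unfold eta psi1 BX qX
  rw [h1, h1]
  generalize (∑ i, star (X i) * Y i) = S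
  apply Complex.ext <;> simp [-Complex.ofReal_pow, -Complex.ofReal_div, -Complex.ofReal_sub,
    -Complex.ofReal_mul, -Complex.ofReal_add]
  ring

theorem norm_two_add_re {F : Hq} : ‖(2 : ℝ) + F‖ ^ 2 = 4 + 4 * F.re + ‖F‖ ^ 2 := by
  rw [norm_sq_eq, norm_sq_eq]; simp; ring

section
variable {k : ℕ} {P : (Fin (k + 1 + 1) → Hq) × Hq} {Q : (Fin (k + 1) → Hq) → (Fin (k + 1 + 1) → Hq) × Hq}
  (hP : form P P = 0) (hQ : ∀ X, form (Q X) (Q X) = 0) (hPQ : ∀ X, form P (Q X) = 1)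
  (hrel : ∀ X Y, ‖form (Q X) (Q Y)‖ = ‖(((qX X + qX Y) / 2 : ℝ) : Hq) - BX X Y‖)

include hP hQ hPQ hrel

theorem rigid (X : Fin (k + 1) → Hq) (hX : qX X = 2) :
    form (Q 0) (Q X) = 1 ∧ form (xi P (Q 0) (Q X)) (xi P (Q 0) (Q X)) = ((-2 : ℝ) : Hq) ∧
      form (xi P (Q 0) (Q X)) (xi P (Q 0) (Q (-X))) = ((2 : ℝ) : Hq) := by
  have hX' : qX (-X) = 2 := by rw [qX_neg, hX]
  have q0 : qX (0 : Fin (k + 1) → Hq) = 0 := by simp [qX, nn, Cx.re_zero]
  have B0 : ∀ Y, BX (0 : Fin (k + 1) → Hq) Y = 0 := by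
    intro Y; simp [BX, Cx.re_zero]
  have na : ∀ Y, qX Y = 2 → ‖form (Q 0) (Q Y)‖ = 1 := by
    intro Y hY; rw [hrel, q0, hY, B0]; simp
  have hxx : ∀ Y Z, form (xi P (Q 0) (Q Y)) (xi P (Q 0) (Q Z)) =
      form (Q Y) (Q Z) - form (Q 0) (Q Z) - star (form (Q 0) (Q Y)) := fun Y Z =>
    form_xi_xi hP (hQ 0) (hPQ 0) (hPQ Y) (hPQ Z)
  have hPx : ∀ Y, form P (xi P (Q 0) (Q Y)) = 0 := fun Y => form_P_xi hP (hPQ 0) (hPQ Y)
  set a := form (Q 0) (Q X) with ha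
  set b := form (Q 0) (Q (-X)) with hb
  have na1 : ‖a‖ = 1 := na X hX
  have nb1 : ‖b‖ = 1 := na (-X) hX'
  have e1 : (form (xi P (Q 0) (Q X)) (xi P (Q 0) (Q X))).re = -2 * a.re := by
    rw [hxx, hQ, ← ha]; simp; ring
  have e2 : (form (xi P (Q 0) (Q (-X))) (xi P (Q 0) (Q (-X)))).re = -2 * b.re := by
    rw [hxx, hQ, ← hb]; simp; ring
  have p1 : 0 ≤ a.re := by
    have := form_nonpos hP (hPQ 0) (hPx X); rw [e1] at this; linarith
  have p2 : 0 ≤ b.re := by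
    have := form_nonpos hP (hPQ 0) (hPx (-X)); rw [e2] at this; linarith
  have cs := form_cs hP (hPQ 0) (hPx X) (hPx (-X))
  rw [e1, e2] at cs
  set F := form (xi P (Q 0) (Q X)) (xi P (Q 0) (Q (-X))) with hF
  have hFe : form (Q X) (Q (-X)) = F + b + star a := by
    rw [hF, hxx, ← ha, ← hb]; abel
  have n4 : ‖F + b + star a‖ = 4 := by
    rw [← hFe, hrel, hX, hX', BX_neg_right, BX_self, hX]
    have : (((2 + 2) / 2 : ℝ) : Hq) - -((2 : ℝ) : Hq) = ((4 : ℝ) : Hq) := by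
      rw [← Cx.coe_neg, ← Cx.coe_sub]; norm_num
    rw [this, Cx.norm_coe]; norm_num
  have a1 : a.re ^ 2 + a.im ^ 2 = 1 := by
    rw [← norm_sq_eq, na1]; norm_num
  have b1 : b.re ^ 2 + b.im ^ 2 = 1 := by
    rw [← norm_sq_eq, nb1]; norm_num
  have a2 : a.re ≤ 1 := by nlinarith [sq_nonneg a.im]
  have b2 : b.re ≤ 1 := by nlinarith [sq_nonneg b.im]
  have f1 : 2 ≤ ‖F‖ := by
    have h1 : ‖F + b + star a‖ ≤ ‖F‖ + ‖b‖ + ‖star a‖ :=
      (norm_add_le _ _).trans (add_le_add_left (norm_add_le _ _) _)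
    rw [n4, nb1, Cx.norm_star, na1] at h1
    linarith
  have hab : 1 ≤ a.re * b.re := by nlinarith
  have ar : a.re = 1 := by nlinarith
  have br : b.re = 1 := by nlinarith
  have ha1 : a = 1 := by
    rw [ar] at a1
    have h1 : a.im = 0 := by nlinarith [sq_nonneg a.im]
    apply Complex.ext
    · exact ar
    · exact h1
  have hb1 : b = 1 := by
    rw [br] at b1
    have h1 : b.im = 0 := by nlinarith [sq_nonneg b.im]
    apply Complex.ext
    · exact br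
    · exact h1
  have f2 : ‖F‖ ^ 2 = F.re ^ 2 + F.im ^ 2 := norm_sq_eq F
  have f3 : ‖F + b + star a‖ ^ 2 = (F.re + 2) ^ 2 + F.im ^ 2 := by
    rw [ha1, hb1, norm_sq_eq]
    simp [Cx.re_one, Cx.im_one]
    ring
  rw [n4] at f3
  rw [ar, br] at cs
  have hr : F.re = 2 := by
    have : 2 ≤ F.re := by nlinarith
    nlinarith [sq_nonneg F.im]
  refine ⟨ha1, ?_, ?_⟩
  · rw [form_self_re, e1, ar]; norm_num
  · rw [hr] at f2
    have h1 : F.im = 0 := by nlinarith [sq_nonneg F.im]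
    apply Complex.ext
    · exact hr
    · exact h1

/-- products of the `ξ`'s -/
theorem rigid2 (X Y : Fin (k + 1) → Hq) (hX : qX X = 2) (hY : qX Y = 2) :
    (form (xi P (Q 0) (Q X)) (xi P (Q 0) (Q Y))).re = -(BX X Y).re ∧
      ‖form (xi P (Q 0) (Q X)) (xi P (Q 0) (Q Y))‖ ^ 2 = ‖BX X Y‖ ^ 2 := by
  have hX' : qX (-X) = 2 := by rw [qX_neg, hX]
  have hxx : ∀ Y Z, form (xi P (Q 0) (Q Y)) (xi P (Q 0) (Q Z)) =
      form (Q Y) (Q Z) - form (Q 0) (Q Z) - star (form (Q 0) (Q Y)) := fun Y Z =>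
    form_xi_xi hP (hQ 0) (hPQ 0) (hPQ Y) (hPQ Z)
  have hPx : ∀ Y, form P (xi P (Q 0) (Q Y)) = 0 := fun Y => form_P_xi hP (hPQ 0) (hPQ Y)
  obtain ⟨r1, r2, r3⟩ := rigid hP hQ hPQ hrel X hX
  obtain ⟨s1, s2, s3⟩ := rigid hP hQ hPQ hrel Y hY
  obtain ⟨t1, t2, t3⟩ := rigid hP hQ hPQ hrel (-X) hX'
  rw [neg_neg] at t3
  -- `ξ_X + ξ_{-X}` is isotropic
  have hzero : form (xi P (Q 0) (Q X) + xi P (Q 0) (Q (-X))) (xi P (Q 0) (Q Y)) = 0 := by
    have c1 : form P (xi P (Q 0) (Q X) + xi P (Q 0) (Q (-X))) = 0 := by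
      rw [form_add_right, hPx, hPx, add_zero]
    have c2 := form_cs hP (hPQ 0) c1 (hPx Y)
    have c3 : form (xi P (Q 0) (Q X) + xi P (Q 0) (Q (-X)))
        (xi P (Q 0) (Q X) + xi P (Q 0) (Q (-X))) = 0 := by
      rw [form_add_right, form_add_left, form_add_left, r2, r3, t2, t3,
        ← Cx.coe_add, ← Cx.coe_add, ← Cx.coe_add]
      norm_num
    rw [c3] at c2
    have c4 : (0 : Hq).re = 0 := rfl
    rw [c4, zero_mul] at c2
    have c5 : ‖form (xi P (Q 0) (Q X) + xi P (Q 0) (Q (-X))) (xi P (Q 0) (Q Y))‖ = 0 := by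
      nlinarith [norm_nonneg (form (xi P (Q 0) (Q X) + xi P (Q 0) (Q (-X))) (xi P (Q 0) (Q Y)))]
    exact norm_eq_zero.1 c5
  rw [form_add_left] at hzero
  set F := form (xi P (Q 0) (Q X)) (xi P (Q 0) (Q Y)) with hF
  have hF' : form (xi P (Q 0) (Q (-X))) (xi P (Q 0) (Q Y)) = -F := by
    rw [add_comm] at hzero; exact eq_neg_of_add_eq_zero_left hzero
  have g1 : form (Q X) (Q Y) = ((2 : ℝ) : Hq) + F := by
    rw [hF, hxx, r1, s1, star_one]
    have : ((2 : ℝ) : Hq) = 1 + 1 := by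
      rw [← Cx.coe_one, ← Cx.coe_add]; norm_num
    rw [this]; abel
  have g2 : form (Q (-X)) (Q Y) = ((2 : ℝ) : Hq) + -F := by
    rw [← hF', hxx, t1, s1, star_one]
    have : ((2 : ℝ) : Hq) = 1 + 1 := by
      rw [← Cx.coe_one, ← Cx.coe_add]; norm_num
    rw [this]; abel
  have k1 := hrel X Y
  have k2 := hrel (-X) Y
  rw [g1, hX, hY] at k1
  rw [g2, hX', hY, BX_neg] at k2
  have e : (((2 + 2) / 2 : ℝ) : Hq) = ((2 : ℝ) : Hq) := by norm_num
  rw [e, sub_eq_add_neg] at k1 k2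
  rw [neg_neg] at k2
  have k1' := congrArg (fun x : ℝ => x ^ 2) k1
  have k2' := congrArg (fun x : ℝ => x ^ 2) k2
  simp only [norm_two_add_re, norm_neg, Cx.re_neg] at k1' k2'
  constructor <;> linarith

end

/-- the special real basis -/
noncomputable def eu : Fin 2 → Hq := ![qu 1 0, qu 0 1]

noncomputable def cof {k : ℕ} (l : Fin (k + 1) × Fin 2) : ℝ := if l = (0, 0) then 1 else Real.sqrt 2

noncomputable def XX {k : ℕ} (l : Fin (k + 1) × Fin 2) : Fin (k + 1) → Hq :=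
  Pi.single l.1 (cof l • eu l.2)

theorem sum_single {k : ℕ} (p p' : Fin (k + 1)) (c c' : Hq) :
    ∑ i, star ((Pi.single p c : Fin (k + 1) → Hq) i) * (Pi.single p' c' : Fin (k + 1) → Hq) i =
      if p = p' then star c * c' else 0 := by
  classical
  rw [Finset.sum_eq_single p]
  · rw [Pi.single_eq_same]
    split_ifs with h
    · rw [h, Pi.single_eq_same]
    · rw [Pi.single_eq_of_ne h, mul_zero]
  · intro b _ hb
    rw [Pi.single_eq_of_ne hb, star_zero, zero_mul]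
  · intro h; exact absurd (Finset.mem_univ _) h

theorem eu_star_mul_re (u u' : Fin 2) : (star (eu u) * eu u').re = if u = u' then 1 else 0 := by
  fin_cases u <;> fin_cases u' <;> simp [eu, qu, Cx.re_mul]

theorem eu_re (u : Fin 2) : (eu u).re = if u = 0 then 1 else 0 := by
  fin_cases u <;> simp [eu, qu]

theorem eu_norm (u : Fin 2) : ‖eu u‖ ^ 2 = 1 := by
  rw [norm_sq_eq]
  fin_cases u <;> simp [eu, qu]

theorem XX_zero_re {k : ℕ} (l : Fin (k + 1) × Fin 2) :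
    (XX l 0).re = if l = (0, 0) then 1 else 0 := by
  obtain ⟨p, u⟩ := l
  unfold XX
  by_cases hp : p = 0
  · subst hp
    rw [Pi.single_eq_same, Cx.re_smul, eu_re]
    by_cases hu : u = 0
    · subst hu; simp [cof]
    · simp [hu]
  · rw [Pi.single_eq_of_ne (Ne.symm hp)]
    simp [hp, Cx.re_zero]

theorem BX_XX {k : ℕ} (l l' : Fin (k + 1) × Fin 2) :
    BX (XX l) (XX l') = (if l.1 = l'.1 then (cof l * cof l') • (star (eu l.2) * eu l'.2) else 0) +
      (((if l = (0, 0) then 1 else 0) * (if l' = (0, 0) then 1 else 0) : ℝ) : Hq) := by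
  unfold BX
  rw [XX_zero_re, XX_zero_re]
  congr 1
  unfold XX
  rw [sum_single]
  split_ifs with h
  · have hs : star (cof l • eu l.2) = cof l • star (eu l.2) := by apply Complex.ext <;> simp
    rw [hs, smul_mul_smul_comm]
  · rfl

theorem cof_sq {k : ℕ} (l : Fin (k + 1) × Fin 2) :
    cof l * cof l = if l = (0, 0) then 1 else 2 := by
  unfold cof
  split_ifs
  · norm_num
  · exact Real.mul_self_sqrt (by norm_num)

theorem BX_XX_re {k : ℕ} (l l' : Fin (k + 1) × Fin 2) :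
    (BX (XX l) (XX l')).re = if l = l' then 2 else 0 := by
  rw [BX_XX, Cx.re_add, Cx.re_coe]
  by_cases h : l = l'
  · subst h
    rw [if_pos rfl, if_pos rfl, Cx.re_smul, eu_star_mul_re, if_pos rfl, cof_sq]
    split_ifs <;> norm_num
  · rw [if_neg h]
    by_cases h1 : l.1 = l'.1
    · have h2 : l.2 ≠ l'.2 := fun h2 => h (Prod.ext h1 h2)
      rw [if_pos h1, Cx.re_smul, eu_star_mul_re, if_neg h2]
      by_cases h3 : l = (0, 0)
      · have h4 : l' ≠ (0, 0) := fun h4 => h (h3.trans h4.symm)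
        simp [h4]
      · simp [h3]
    · rw [if_neg h1]
      by_cases h3 : l = (0, 0)
      · have h4 : l' ≠ (0, 0) := fun h4 => h (h3.trans h4.symm)
        simp [h4, Cx.re_zero]
      · simp [h3, Cx.re_zero]

theorem qX_XX {k : ℕ} (l : Fin (k + 1) × Fin 2) : qX (XX l) = 2 := by
  have h := BX_XX_re l l
  rw [BX_self, if_pos rfl, Cx.re_coe] at h
  exact h

theorem BX_XX_norm {k : ℕ} (l : Fin (k + 1) × Fin 2) :
    ‖BX (XX l) (XX (0, 0))‖ ^ 2 = if l.1 = 0 then (if l.2 = 0 then 4 else 2) else 0 := by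
  obtain ⟨p, u⟩ := l
  rw [BX_XX]
  dsimp only
  have e0 : eu 0 = 1 := by
    apply Complex.ext <;> simp [eu, qu, Cx.re_one, Cx.im_one]
  have c0 : cof (k := k) (0, 0) = 1 := by simp [cof]
  rw [e0, c0, mul_one, mul_one]
  by_cases hp : p = 0
  · subst hp
    by_cases hu : u = 0
    · subst hu
      rw [if_pos rfl, if_pos rfl, if_pos rfl, if_pos rfl, c0, e0, one_smul, star_one, mul_one,
        Cx.coe_one]
      have : (1 : Hq) + 1 = ((2 : ℝ) : Hq) := by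
        rw [← Cx.coe_one, ← Cx.coe_add]; norm_num
      rw [this, Cx.norm_coe]; norm_num
    · have h1 : ((0 : Fin (k + 1)), u) ≠ (0, 0) := fun h => hu (Prod.ext_iff.1 h).2
      rw [if_pos rfl, if_neg h1, if_neg hu, zero_mul, Cx.coe_zero, add_zero,
        norm_smul, Cx.norm_star, mul_pow, eu_norm, mul_one, Real.norm_eq_abs, sq_abs, sq,
        cof_sq, if_neg h1]
      simp
  · have h1 : (p, u) ≠ ((0 : Fin (k + 1)), (0 : Fin 2)) := fun h => hp (Prod.ext_iff.1 h).1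
    rw [if_neg hp, if_neg h1, if_neg hp, zero_mul, Cx.coe_zero, add_zero]
    simp

theorem no_vec_succ (k : ℕ) : ¬ HasVec (psi1 k) := by
  rintro ⟨P, Q', hP, hQ', hPQ', hrel'⟩
  obtain ⟨Q, hQQ⟩ : ∃ Q : (Fin (k + 1) → Hq) → (Fin (k + 1 + 1) → Hq) × Hq, ∀ X, Q X = Q' X 0 :=
    ⟨fun X => Q' X 0, fun _ => rfl⟩
  have hQ : ∀ X, form (Q X) (Q X) = 0 := fun X => by rw [hQQ]; exact hQ' X 0
  have hPQ : ∀ X, form P (Q X) = 1 := fun X => by rw [hQQ]; exact hPQ' X 0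
  have hrel : ∀ X Y, ‖form (Q X) (Q Y)‖ = ‖(((qX X + qX Y) / 2 : ℝ) : Hq) - BX X Y‖ := by
    intro X Y
    rw [hQQ, hQQ, hrel', eta_psi1]
  have h3 := fun l l' => rigid2 hP hQ hPQ hrel (XX (k := k) l) (XX l') (qX_XX l) (qX_XX l')
  have hpar := parseval (ξ := fun l => xi P (Q 0) (Q (XX (k := k) l))) hP (hQ 0) (hPQ 0)
    (fun l => form_P_xi hP (hPQ 0) (hPQ _)) (fun l => form_O_xi (hQ 0) (hPQ 0))
    (fun l l' => by
      rw [(h3 l l').1, BX_XX_re]
      split_ifs <;> norm_num) (0, 0)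
  have e : ∀ l : Fin (k + 1) × Fin 2,
      ‖form (xi P (Q 0) (Q (XX l))) (xi P (Q 0) (Q (XX (0, 0))))‖ ^ 2 =
        if l.1 = 0 then (if l.2 = 0 then 4 else 2) else 0 := by
    intro l
    rw [(h3 l (0, 0)).2, BX_XX_norm]
  rw [Finset.sum_congr rfl (fun l _ => e l), Fintype.sum_prod_type, Fin.sum_univ_succ] at hpar
  simp [Fin.sum_univ_two, Fin.succ_ne_zero] at hpar
  norm_num at hpar

end Pool.Agent.CExotic
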