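import Pool.Agent.Lib_MP_f019fe_c.Contra2

set_option autoImplicit false

/-! Exotic maps between complex hyperbolic spaces, all target dimensions. -/

namespace Pool.Agent.CExotic

open Filter Topology

theorem lip0 : Lip (psi0 0) := by
  intro ζ w ζ' w' _ _
  unfold eta psi0
  simp only [Finset.univ_eq_empty, Finset.sum_empty, sub_zero]
  rw [norm_smul, Real.norm_of_nonneg (by norm_num : (0 : ℝ) ≤ 1 / 2)]
  have h1 : ‖w'‖ ≤ ‖star w + w'‖ + ‖w‖ := by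
    have := norm_sub_le (star w + w') (star w)
    rw [add_sub_cancel_left, Cx.norm_star] at this
    exact this
  have h2 : ‖w‖ ≤ ‖star w + w'‖ + ‖w'‖ := by
    have := norm_sub_le (star w + w') w'
    rw [add_sub_cancel_right, Cx.norm_star] at this
    exact this
  set a := Real.sqrt ‖w‖ with ha
  set b := Real.sqrt ‖w'‖ with hb
  have ha2 : ‖w‖ = a ^ 2 := (Real.sq_sqrt (norm_nonneg _)).symm
  have hb2 : ‖w'‖ = b ^ 2 := (Real.sq_sqrt (norm_nonneg _)).symm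
  have ha0 : 0 ≤ a := Real.sqrt_nonneg _
  have hb0 : 0 ≤ b := Real.sqrt_nonneg _
  rw [ha2, hb2] at h1 h2
  rcases le_total a b with h | h
  · nlinarith
  · nlinarith

theorem cont0 (ζ : Fin 0 → Hq) : Continuous (psi0 0 ζ) :=
  Real.continuous_sqrt.comp continuous_norm

theorem lip1 (k : ℕ) : Lip (psi1 k) := by
  intro ζ w ζ' w' h h'
  have h1 := re_eta ζ w ζ' w'
  have h2 : ‖ζ 0 - ζ' 0‖ ^ 2 ≤ ∑ i, ‖ζ i - ζ' i‖ ^ 2 :=
    Finset.single_le_sum (f := fun i => ‖ζ i - ζ' i‖ ^ 2) (fun _ _ => by positivity)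
      (Finset.mem_univ _)
  have h3 : ((ζ 0).re - (ζ' 0).re) ^ 2 ≤ ‖ζ 0 - ζ' 0‖ ^ 2 := by
    rw [← Cx.re_sub, ← sq_abs]
    exact pow_le_pow_left₀ (abs_nonneg _) (abs_re_le _) 2
  have h4 := (le_abs_self _).trans (abs_re_le (eta ζ w ζ' w'))
  unfold psi1
  linarith

theorem cont1 (k : ℕ) (ζ : Fin (k + 1) → Hq) : Continuous (psi1 k ζ) := continuous_const

theorem Dq_pad {n : ℕ} (r : ℕ) (x y : Fin n → Hq) : Dq (pad r x) (pad r y) = Dq x y := by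
  unfold Dq
  rw [hf_pad, dl_pad, dl_pad]

theorem core (m r : ℕ) (ψ : (Fin m → Hq) → Hq → ℝ) (hl : Lip ψ) (hc : ∀ ζ, Continuous (ψ ζ))
    (hno : ¬ HasVec ψ) :
    ∃ f : (Fin (m + 1) → Hq) → (Fin (m + 1 + 1 + r) → Hq),
      (∀ x, 0 < dl x → 0 < dl (f x)) ∧
      (∀ x y, 0 < dl x → 0 < dl y → Dq x y ≤ Dq (f x) (f y) ∧
        Dq (f x) (f y) ≤ Dq x y + Real.log 4) ∧
      ∀ g : (Fin (m + 1) → Hq) → (Fin (m + 1 + 1 + r) → Hq), (∀ x, 0 < dl x → 0 < dl (g x)) →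
        (∀ x y, 0 < dl x → 0 < dl y → Dq (g x) (g y) = Dq x y) → ∀ R : ℝ,
        ∃ x, 0 < dl x ∧ ∀ y, 0 < dl y → R < Dq (f x) (g y) := by
  refine ⟨fun x => pad r (fmap m ψ x), fun x hx => by rw [dl_pad]; exact fmap_ball ψ hx, ?_, ?_⟩
  · intro x y hx hy
    obtain ⟨h1, h2⟩ := qf_fmap hl hx hy
    have h3 : Dq x y ≤ Dq (fmap m ψ x) (fmap m ψ y) := Kf_mono h1
    have h4 : Dq (fmap m ψ x) (fmap m ψ y) ≤ Dq x y + Real.log 4 :=
      Kf_le_add (one_le_qf hx hy) h2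
    rw [Dq_pad]
    exact ⟨h3, h4⟩
  · intro g hgb hg R
    by_contra hcon
    apply hno
    refine boundary_vectors r ψ hc g hgb hg R fun x hx => ?_
    by_contra hcon2
    apply hcon
    refine ⟨x, hx, fun y hy => ?_⟩
    by_contra hcon3
    exact hcon2 ⟨y, hy, not_lt.1 hcon3⟩

theorem core' (n M : ℕ) (hn : 1 ≤ n) (hM : n < M) :
    ∃ f : (Fin n → Hq) → (Fin M → Hq),
      (∀ x, 0 < dl x → 0 < dl (f x)) ∧
      (∀ x y, 0 < dl x → 0 < dl y → Dq x y ≤ Dq (f x) (f y) ∧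
        Dq (f x) (f y) ≤ Dq x y + Real.log 4) ∧
      ∀ g : (Fin n → Hq) → (Fin M → Hq), (∀ x, 0 < dl x → 0 < dl (g x)) →
        (∀ x y, 0 < dl x → 0 < dl y → Dq (g x) (g y) = Dq x y) → ∀ R : ℝ,
        ∃ x, 0 < dl x ∧ ∀ y, 0 < dl y → R < Dq (f x) (g y) := by
  obtain ⟨m, rfl⟩ : ∃ m, n = m + 1 := ⟨n - 1, by omega⟩
  obtain ⟨r, rfl⟩ : ∃ r, M = m + 1 + 1 + r := ⟨M - (m + 1 + 1), by omega⟩
  rcases m with _ | k
  · exact core 0 r (psi0 0) lip0 cont0 no_vec_zero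
  · exact core (k + 1) r (psi1 k) (lip1 k) (cont1 k) (no_vec_succ k)

end Pool.Agent.CExotic
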