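import Mathlib

set_option autoImplicit false

/-! Elementary facts on complex numbers, in a uniform naming. -/

namespace Pool.Agent.CExotic.Cx

open scoped ComplexConjugate

theorem re_coe (r : ℝ) : (r : ℂ).re = r := rfl
theorem im_coe (r : ℝ) : (r : ℂ).im = 0 := rfl
theorem re_add (a b : ℂ) : (a + b).re = a.re + b.re := rfl
theorem im_add (a b : ℂ) : (a + b).im = a.im + b.im := rfl
theorem re_sub (a b : ℂ) : (a - b).re = a.re - b.re := rfl
theorem im_sub (a b : ℂ) : (a - b).im = a.im - b.im := rfl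
theorem re_neg (a : ℂ) : (-a).re = -a.re := rfl
theorem re_zero : (0 : ℂ).re = 0 := rfl
theorem re_one : (1 : ℂ).re = 1 := rfl
theorem im_one : (1 : ℂ).im = 0 := rfl
theorem re_mul (a b : ℂ) : (a * b).re = a.re * b.re - a.im * b.im := rfl
theorem im_mul (a b : ℂ) : (a * b).im = a.re * b.im + a.im * b.re := rfl
theorem re_star (a : ℂ) : (star a).re = a.re := rfl
theorem im_star (a : ℂ) : (star a).im = -a.im := rfl
theorem re_smul (r : ℝ) (a : ℂ) : (r • a).re = r • a.re := by simp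
theorem coe_add (a b : ℝ) : ((a + b : ℝ) : ℂ) = (a : ℂ) + b := Complex.ofReal_add a b
theorem coe_sub (a b : ℝ) : ((a - b : ℝ) : ℂ) = (a : ℂ) - b := Complex.ofReal_sub a b
theorem coe_neg (a : ℝ) : ((-a : ℝ) : ℂ) = -(a : ℂ) := Complex.ofReal_neg a
theorem coe_mul (a b : ℝ) : ((a * b : ℝ) : ℂ) = (a : ℂ) * b := Complex.ofReal_mul a b
theorem coe_zero : ((0 : ℝ) : ℂ) = 0 := Complex.ofReal_zero
theorem coe_one : ((1 : ℝ) : ℂ) = 1 := Complex.ofReal_one
theorem coe_inv (a : ℝ) : ((a⁻¹ : ℝ) : ℂ) = (a : ℂ)⁻¹ := Complex.ofReal_inv a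
theorem coe_pow (a : ℝ) (n : ℕ) : ((a ^ n : ℝ) : ℂ) = (a : ℂ) ^ n := Complex.ofReal_pow a n
theorem coe_div (a b : ℝ) : ((a / b : ℝ) : ℂ) = (a : ℂ) / b := Complex.ofReal_div a b
theorem coe_mul_eq_smul (r : ℝ) (a : ℂ) : (r : ℂ) * a = r • a := (Complex.real_smul).symm
theorem coe_injective : Function.Injective (fun r : ℝ => (r : ℂ)) := Complex.ofReal_injective
theorem norm_coe (r : ℝ) : ‖(r : ℂ)‖ = ‖r‖ := Complex.norm_real r
theorem norm_star (a : ℂ) : ‖star a‖ = ‖a‖ := _root_.norm_star a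
theorem coe_commutes (r : ℝ) (a : ℂ) : (r : ℂ) * a = a * (r : ℂ) := mul_comm _ _
theorem continuous_coe : Continuous (fun r : ℝ => (r : ℂ)) := Complex.continuous_ofReal

/-- the square of the absolute value -/
noncomputable def normSq (a : ℂ) : ℝ := ‖a‖ * ‖a‖
theorem normSq_eq_norm_mul_self (a : ℂ) : normSq a = ‖a‖ * ‖a‖ := rfl
theorem normSq_def' (a : ℂ) : normSq a = a.re ^ 2 + a.im ^ 2 := by
  unfold normSq
  rw [← sq, ← Complex.normSq_eq_norm_sq, Complex.normSq_apply]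
  ring
theorem star_mul_self (a : ℂ) : star a * a = ((normSq a : ℝ) : ℂ) := by
  apply Complex.ext
  · rw [normSq_def']; simp [sq]
  · simp; ring
theorem self_mul_star (a : ℂ) : a * star a = ((normSq a : ℝ) : ℂ) := by
  rw [mul_comm, star_mul_self]

end Pool.Agent.CExotic.Cx
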