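import Pool.Agent.Lib_MP_f019fe_c.Map

set_option autoImplicit false

/-! Boundary limits. -/

namespace Pool.Agent.CExotic

open Filter Topology

theorem continuous_nn {n : ℕ} : Continuous (fun x : Fin n → Hq => nn x) := by
  unfold nn
  exact continuous_finsetSum _ fun i _ => ((continuous_apply i).norm.pow 2)

theorem continuous_dl {n : ℕ} : Continuous (fun x : Fin n → Hq => dl x) :=
  continuous_const.sub continuous_nn

theorem continuous_hf {n : ℕ} :
    Continuous (fun p : (Fin n → Hq) × (Fin n → Hq) => hf p.1 p.2) := by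
  unfold hf
  refine continuous_const.sub (continuous_finsetSum _ fun i _ => ?_)
  exact (continuous_star.comp ((continuous_apply i).comp continuous_fst)).mul
    ((continuous_apply i).comp continuous_snd)

theorem tendsto_hf {n : ℕ} {l : Filter ℕ} {a b : ℕ → Fin n → Hq} {A B : Fin n → Hq}
    (ha : Tendsto a l (𝓝 A)) (hb : Tendsto b l (𝓝 B)) :
    Tendsto (fun k => ‖hf (a k) (b k)‖ ^ 2) l (𝓝 (‖hf A B‖ ^ 2)) := by
  have h1 : Tendsto (fun k => (a k, b k)) l (𝓝 (A, B)) := ha.prodMk_nhds hb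
  have h3 : Tendsto ((fun p : (Fin n → Hq) × (Fin n → Hq) => hf p.1 p.2) ∘
      (fun k => (a k, b k))) l (𝓝 (hf A B)) := (continuous_hf.tendsto (A, B)).comp h1
  have h2 : Tendsto (fun k => hf (a k) (b k)) l (𝓝 (hf A B)) := h3
  exact (h2.norm).pow 2

theorem isCompact_ball {n : ℕ} : IsCompact {x : Fin n → Hq | nn x ≤ 1} := by
  apply Metric.isCompact_of_isClosed_isBounded
  · exact isClosed_le continuous_nn continuous_const
  · rw [isBounded_iff_forall_norm_le]
    refine ⟨1, fun x hx => ?_⟩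
    rw [pi_norm_le_iff_of_nonneg zero_le_one]
    intro i
    have h2 : ‖x i‖ ^ 2 ≤ nn x :=
      Finset.single_le_sum (f := fun i => ‖x i‖ ^ 2) (fun _ _ => by positivity)
        (Finset.mem_univ _)
    have h3 : nn x ≤ 1 := hx
    nlinarith [norm_nonneg (x i)]

theorem ultra_lim {X : Type*} [TopologicalSpace X] {K : Set X} (hK : IsCompact K)
    (U : Ultrafilter ℕ) (y : ℕ → X) (hy : ∀ k, y k ∈ K) :
    ∃ b ∈ K, Tendsto y U (𝓝 b) := by
  have h := isCompact_iff_ultrafilter_le_nhds.1 hK (U.map y) (by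
    rw [Ultrafilter.coe_map, le_principal_iff, mem_map]
    exact Filter.univ_mem' hy)
  obtain ⟨b, hb, hle⟩ := h
  exact ⟨b, hb, hle⟩

theorem limit_lemma {n n' : ℕ} (f g : (Fin n → Hq) → (Fin n' → Hq))
    (hfb : ∀ x, 0 < dl x → 0 < dl (f x)) (hgb : ∀ x, 0 < dl x → 0 < dl (g x))
    (hg : ∀ x y, 0 < dl x → 0 < dl y → Dq (g x) (g y) = Dq x y) (R : ℝ)
    (hR : ∀ x, 0 < dl x → ∃ y, 0 < dl y ∧ Dq (f x) (g y) ≤ R)
    {I : Type*} (x : I → ℕ → Fin n → Hq) (hx : ∀ i k, 0 < dl (x i k))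
    (α : I → Fin n' → Hq) (hα : ∀ i, Tendsto (fun k => f (x i k)) atTop (𝓝 (α i)))
    (hα0 : ∀ i, dl (α i) = 0) :
    ∃ (b : I → Fin n → Hq) (ν : I → ℝ), (∀ i, 0 < ν i) ∧ (∀ i, dl (b i) = 0) ∧
      ∀ i j, ‖hf (α i) (α j)‖ ^ 2 = ν i * ν j * ‖hf (b i) (b j)‖ ^ 2 := by
  have hN : ∀ x y, 0 < dl x → 0 < dl y →
      ‖hf (g x) (g y)‖ ^ 2 = (dl (g x) / dl x) * (dl (g y) / dl y) * ‖hf x y‖ ^ 2 := by
    intro x y hx hy
    have h := Kf_inj (one_le_qf (hgb x hx) (hgb y hy)) (one_le_qf hx hy) (hg x y hx hy)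
    unfold qf at h
    have h1 := hgb x hx
    have h2 := hgb y hy
    rw [div_eq_div_iff (mul_pos h1 h2).ne' (mul_pos hx hy).ne'] at h
    field_simp
    linarith
  -- the origin
  have hd0 : dl (0 : Fin n → Hq) = 1 := by simp [dl]
  have hh0 : ∀ y : Fin n → Hq, hf (0 : Fin n → Hq) y = 1 := by intro y; simp [hf]
  have hg0 : 0 < dl (g 0) := hgb 0 (by rw [hd0]; norm_num)
  set c0 := dl (g 0) with hc0
  set s := Real.sqrt (nn (g 0)) with hs
  have hs0 : 0 ≤ s := Real.sqrt_nonneg _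
  have hs1 : s < 1 := by
    rw [hs, Real.sqrt_lt' one_pos]
    have : dl (g 0) = 1 - nn (g 0) := rfl
    rw [hc0, this] at hg0
    linarith
  have hNy : ∀ y, 0 < dl y → ‖hf (g 0) (g y)‖ ^ 2 = c0 * (dl (g y) / dl y) := by
    intro y hy
    rw [hN 0 y (by rw [hd0]; norm_num) hy, hd0, hh0, norm_one]
    ring
  have hsq : ∀ y, 0 < dl y → Real.sqrt (nn (g y)) ≤ 1 := by
    intro y hy
    have h1 := hgb y hy
    rw [dl_eq] at h1
    rw [← Real.sqrt_one]
    exact Real.sqrt_le_sqrt (by linarith)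
  have hlow : ∀ y, 0 < dl y → (1 - s) ^ 2 / c0 ≤ dl (g y) / dl y := by
    intro y hy
    rw [div_le_iff₀ hg0, mul_comm, ← hNy y hy]
    apply pow_le_pow_left₀ (by linarith)
    refine le_trans ?_ (one_sub_le_norm_hf (g 0) (g y))
    have := hsq y hy
    nlinarith
  have hup : ∀ y, 0 < dl y → dl (g y) / dl y ≤ 4 / c0 := by
    intro y hy
    rw [le_div_iff₀ hg0, mul_comm, ← hNy y hy]
    have h1 : ‖hf (g 0) (g y)‖ ≤ 2 := by
      refine (norm_hf_le (g 0) (g y)).trans ?_
      have := hsq y hy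
      have h3 := Real.sqrt_nonneg (nn (g y))
      nlinarith
    nlinarith [norm_nonneg (hf (g 0) (g y))]
  -- companions
  choose y hy hyR using fun i k => hR (x i k) (hx i k)
  have hclose : ∀ i, Tendsto (fun k => g (y i k)) atTop (𝓝 (α i)) := by
    intro i
    have h0 : Tendsto (fun k => dl (f (x i k))) atTop (𝓝 0) := by
      have := (continuous_dl.tendsto (α i)).comp (hα i)
      rw [hα0 i] at this
      exact this
    have h1 : Tendsto (fun k => 2 * Real.sqrt ((1 + Real.sinh R ^ 2) * dl (f (x i k)))) atTop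
        (𝓝 0) := by
      have h2 : Tendsto (fun k => 2 * Real.sqrt ((1 + Real.sinh R ^ 2) * dl (f (x i k)))) atTop
          (𝓝 (2 * Real.sqrt ((1 + Real.sinh R ^ 2) * 0))) :=
        ((Real.continuous_sqrt.tendsto _).comp (h0.const_mul _)).const_mul 2
      simpa using h2
    have h3 : ∀ k, ∑ l, ‖f (x i k) l - g (y i k) l‖ ^ 2 ≤
        2 * Real.sqrt ((1 + Real.sinh R ^ 2) * dl (f (x i k))) := by
      intro k
      have hfx := hfb _ (hx i k)
      have hgy := hgb _ (hy i k)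
      refine (sum_norm_sub_le _ _ hfx.le hgy.le).trans ?_
      apply mul_le_mul_of_nonneg_left _ (by norm_num)
      apply Real.le_sqrt_of_sq_le
      have h4 := le_of_Kf_le (hyR i k)
      rw [div_le_iff₀ (mul_pos hfx hgy)] at h4
      refine h4.trans ?_
      have h5 : dl (g (y i k)) ≤ 1 := by
        rw [dl_eq]; have := nn_nonneg (g (y i k)); linarith
      have h6 : 0 ≤ (1 + Real.sinh R ^ 2) * dl (f (x i k)) := by positivity
      nlinarith
    have h4 : Tendsto (fun k => ∑ l, ‖f (x i k) l - g (y i k) l‖ ^ 2) atTop (𝓝 0) :=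
      squeeze_zero (fun k => Finset.sum_nonneg fun _ _ => by positivity) h3 h1
    rw [tendsto_pi_nhds]
    intro l
    have h5 : Tendsto (fun k => ‖f (x i k) l - g (y i k) l‖ ^ 2) atTop (𝓝 0) := by
      refine squeeze_zero (fun k => by positivity) (fun k => ?_) h4
      exact Finset.single_le_sum (f := fun l => ‖f (x i k) l - g (y i k) l‖ ^ 2)
        (fun _ _ => by positivity) (Finset.mem_univ l)
    have h6 : Tendsto (fun k => ‖f (x i k) l - g (y i k) l‖) atTop (𝓝 0) := by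
      have := (Real.continuous_sqrt.tendsto 0).comp h5
      rw [Real.sqrt_zero] at this
      refine this.congr fun k => ?_
      exact Real.sqrt_sq (norm_nonneg _)
    have h7 : Tendsto (fun k => f (x i k) l - g (y i k) l) atTop (𝓝 0) :=
      tendsto_zero_iff_norm_tendsto_zero.2 h6
    have h8 := (tendsto_pi_nhds.1 (hα i) l).sub h7
    rw [sub_zero] at h8
    refine h8.congr fun k => ?_
    abel
  -- ultrafilter limits
  let U : Ultrafilter ℕ := hyperfilter ℕ
  have hU : (U : Filter ℕ) ≤ atTop := Nat.hyperfilter_le_atTop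
  have hb : ∀ i, ∃ b : Fin n → Hq, b ∈ {x : Fin n → Hq | nn x ≤ 1} ∧ Tendsto (y i) U (𝓝 b) := by
    intro i
    exact ultra_lim isCompact_ball U (y i) fun k => by
      have := hy i k
      rw [dl_eq] at this
      exact (by linarith : nn (y i k) ≤ 1)
  choose b hb1 hb2 using hb
  have hν : ∀ i, ∃ ν : ℝ, ν ∈ Set.Icc ((1 - s) ^ 2 / c0) (4 / c0) ∧
      Tendsto (fun k => dl (g (y i k)) / dl (y i k)) U (𝓝 ν) := by
    intro i
    exact ultra_lim isCompact_Icc U _ fun k => ⟨hlow _ (hy i k), hup _ (hy i k)⟩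
  choose ν hν1 hν2 using hν
  have hνpos : ∀ i, 0 < ν i := fun i =>
    lt_of_lt_of_le (by have : 0 < 1 - s := by linarith
                       positivity) (hν1 i).1
  refine ⟨b, ν, hνpos, fun i => ?_, fun i j => ?_⟩
  · have h1 : Tendsto (fun k => dl (y i k)) U (𝓝 (dl (b i))) :=
      (continuous_dl.tendsto _).comp (hb2 i)
    have h2 : Tendsto (fun k => dl (g (y i k))) U (𝓝 0) := by
      have := (continuous_dl.tendsto (α i)).comp ((hclose i).mono_left hU)
      rw [hα0 i] at this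
      exact this
    have h3 := h2.div (hν2 i) (hνpos i).ne'
    rw [zero_div] at h3
    refine tendsto_nhds_unique (h1.congr fun k => ?_) h3
    have e1 := hy i k
    have e2 := hgb _ (hy i k)
    simp only [Pi.div_apply]
    field_simp
  · have h1 : Tendsto (fun k => ‖hf (g (y i k)) (g (y j k))‖ ^ 2) U
        (𝓝 (‖hf (α i) (α j)‖ ^ 2)) :=
      tendsto_hf ((hclose i).mono_left hU) ((hclose j).mono_left hU)
    have h2 : Tendsto (fun k => ‖hf (y i k) (y j k)‖ ^ 2) U
        (𝓝 (‖hf (b i) (b j)‖ ^ 2)) := tendsto_hf (hb2 i) (hb2 j)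
    have h3 := ((hν2 i).mul (hν2 j)).mul h2
    refine tendsto_nhds_unique (h1.congr fun k => ?_) h3
    exact hN _ _ (hy i k) (hy j k)

end Pool.Agent.CExotic
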