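import Pool.Agent.Lib_MP_f019fe_c.Basic

set_option autoImplicit false

/-! The exotic map in Siegel coordinates. -/

namespace Pool.Agent.CExotic

open Filter Topology

noncomputable def qf {ι : Type*} [Fintype ι] (x y : ι → Hq) : ℝ := ‖hf x y‖ ^ 2 / (dl x * dl y)

theorem Dq_eq {ι : Type*} [Fintype ι] (x y : ι → Hq) : Dq x y = Kf (qf x y) := rfl

theorem one_le_qf {ι : Type*} [Fintype ι] {x y : ι → Hq} (hx : 0 < dl x) (hy : 0 < dl y) :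
    1 ≤ qf x y := by
  unfold qf
  rw [le_div_iff₀ (mul_pos hx hy), one_mul]
  exact rev_cs x y hx.le hy.le

theorem qf_sieg {k : ℕ} (ζ : Fin k → Hq) (w : Hq) (ζ' : Fin k → Hq) (w' : Hq)
    (hw : 1 + w ≠ 0) (hw' : 1 + w' ≠ 0) :
    qf (sieg ζ w) (sieg ζ' w') =
      ‖eta ζ w ζ' w'‖ ^ 2 / ((w.re - nn ζ) * (w'.re - nn ζ')) := by
  unfold qf
  rw [hf_sieg ζ w ζ' w' hw hw', dl_sieg ζ w hw, dl_sieg ζ' w' hw', norm_mul, norm_mul,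
    Cx.norm_star]
  have h1 : ‖Uq w‖ ≠ 0 := norm_ne_zero_iff.2 (Uq_ne_zero hw)
  have h2 : ‖Uq w'‖ ≠ 0 := norm_ne_zero_iff.2 (Uq_ne_zero hw')
  rw [show (‖Uq w‖ * ‖eta ζ w ζ' w'‖ * ‖Uq w'‖) ^ 2 =
    (‖Uq w‖ ^ 2 * ‖Uq w'‖ ^ 2) * ‖eta ζ w ζ' w'‖ ^ 2 by ring,
    show ‖Uq w‖ ^ 2 * (w.re - nn ζ) * (‖Uq w'‖ ^ 2 * (w'.re - nn ζ')) =
    (‖Uq w‖ ^ 2 * ‖Uq w'‖ ^ 2) * ((w.re - nn ζ) * (w'.re - nn ζ')) by ring]
  exact mul_div_mul_left _ _ (by positivity)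

theorem pos_of_ball {k : ℕ} {x : Fin (k + 1) → Hq} (hx : 0 < dl x) :
    0 < (wt x).re - nn (zt x) := by
  have h := dl_sieg (zt x) (wt x) (one_add_wt hx)
  rw [sieg_zt hx] at h
  rw [h] at hx
  have h2 : 0 < ‖Uq (wt x)‖ ^ 2 := by
    have := norm_pos_iff.2 (Uq_ne_zero (w := wt x) (by
      intro h0
      have : Uq (wt x) = 0 := by unfold Uq; rw [h0]; simp
      rw [this] at hx
      simp at hx))
    positivity
  exact (pos_iff_pos_of_mul_pos hx).1 h2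

/-- The map adding the extra coordinate `ψ`. -/
noncomputable def fmap (m : ℕ) (ψ : (Fin m → Hq) → Hq → ℝ) (x : Fin (m + 1) → Hq) :
    Fin (m + 1 + 1) → Hq :=
  sieg (k := m + 1) (Fin.snoc (zt x) ((ψ (zt x) (wt x) : ℝ) : Hq))
    (wt x + ((ψ (zt x) (wt x) ^ 2 : ℝ) : Hq))

theorem eta_snoc {m : ℕ} (ζ : Fin m → Hq) (w : Hq) (ζ' : Fin m → Hq) (w' : Hq) (a b : ℝ) :
    eta (k := m + 1) (Fin.snoc ζ (a : Hq)) (w + ((a ^ 2 : ℝ) : Hq)) (Fin.snoc ζ' (b : Hq))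
      (w' + ((b ^ 2 : ℝ) : Hq)) = eta ζ w ζ' w' + (((a - b) ^ 2 / 2 : ℝ) : Hq) := by
  unfold eta
  rw [Fin.sum_univ_castSucc]
  simp only [Fin.snoc_castSucc, Fin.snoc_last]
  generalize (∑ i, star (ζ i) * ζ' i) = S
  apply Complex.ext <;> simp [Cx.re_mul, Cx.im_mul,
    -Complex.ofReal_pow, -Complex.ofReal_div, -Complex.ofReal_sub] <;> ring

theorem nn_snoc {m : ℕ} (ζ : Fin m → Hq) (a : ℝ) :
    nn (Fin.snoc (α := fun _ => Hq) ζ (a : Hq) : Fin (m + 1) → Hq) = nn ζ + a ^ 2 := by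
  unfold nn
  rw [Fin.sum_univ_castSucc]
  simp only [Fin.snoc_castSucc, Fin.snoc_last]
  rw [Cx.norm_coe, Real.norm_eq_abs, sq_abs]

theorem height_snoc {m : ℕ} (ζ : Fin m → Hq) (w : Hq) (a : ℝ) :
    (w + ((a ^ 2 : ℝ) : Hq)).re -
      nn (Fin.snoc (α := fun _ => Hq) ζ (a : Hq) : Fin (m + 1) → Hq) = w.re - nn ζ := by
  rw [nn_snoc, Cx.re_add, Cx.re_coe]; ring

theorem ne_add {m : ℕ} {ζ : Fin m → Hq} {w : Hq} (a : ℝ) (h : 0 ≤ w.re - nn ζ) :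
    1 + (w + ((a ^ 2 : ℝ) : Hq)) ≠ 0 := by
  apply one_add_ne
  rw [Cx.re_add, Cx.re_coe]
  have := nn_nonneg ζ
  nlinarith [sq_nonneg a]

theorem ne_add' {m : ℕ} {ζ : Fin m → Hq} {w : Hq} (h : 0 ≤ w.re - nn ζ) :
    1 + w ≠ 0 := by
  apply one_add_ne
  have := nn_nonneg ζ
  linarith

theorem fmap_ball {m : ℕ} (ψ : (Fin m → Hq) → Hq → ℝ) {x : Fin (m + 1) → Hq} (hx : 0 < dl x) :
    0 < dl (fmap m ψ x) := by
  have hp := pos_of_ball hx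
  unfold fmap
  rw [dl_sieg _ _ (ne_add _ hp.le), height_snoc]
  have := norm_pos_iff.2 (Uq_ne_zero (ne_add (ψ (zt x) (wt x)) hp.le))
  positivity

theorem norm_le_norm_add {a : Hq} (ha : 0 ≤ a.re) {c : ℝ} (hc : 0 ≤ c) :
    ‖a‖ ≤ ‖a + (c : Hq)‖ := by
  apply le_of_sq_le_sq _ (norm_nonneg _)
  rw [norm_sq_eq, norm_sq_eq]
  simp only [Cx.re_add, Cx.im_add,
    Cx.re_coe, Cx.im_coe, add_zero]
  nlinarith

/-- The key condition on the extra coordinate. -/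
def Lip {m : ℕ} (ψ : (Fin m → Hq) → Hq → ℝ) : Prop :=
  ∀ (ζ : Fin m → Hq) (w : Hq) (ζ' : Fin m → Hq) (w' : Hq), 0 < w.re - nn ζ → 0 < w'.re - nn ζ' →
    (ψ ζ w - ψ ζ' w') ^ 2 / 2 ≤ ‖eta ζ w ζ' w'‖

theorem qf_fmap {m : ℕ} {ψ : (Fin m → Hq) → Hq → ℝ} (hψ : Lip ψ) {x y : Fin (m + 1) → Hq}
    (hx : 0 < dl x) (hy : 0 < dl y) :
    qf x y ≤ qf (fmap m ψ x) (fmap m ψ y) ∧ qf (fmap m ψ x) (fmap m ψ y) ≤ 4 * qf x y := by
  have hpx := pos_of_ball hx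
  have hpy := pos_of_ball hy
  have e1 := qf_sieg (zt x) (wt x) (zt y) (wt y) (ne_add' hpx.le) (ne_add' hpy.le)
  rw [sieg_zt hx, sieg_zt hy] at e1
  have e2 := qf_sieg (k := m + 1) (Fin.snoc (zt x) ((ψ (zt x) (wt x) : ℝ) : Hq))
    (wt x + ((ψ (zt x) (wt x) ^ 2 : ℝ) : Hq)) (Fin.snoc (zt y) ((ψ (zt y) (wt y) : ℝ) : Hq))
    (wt y + ((ψ (zt y) (wt y) ^ 2 : ℝ) : Hq)) (ne_add _ hpx.le) (ne_add _ hpy.le)
  rw [eta_snoc, height_snoc, height_snoc] at e2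
  change qf (fmap m ψ x) (fmap m ψ y) = _ at e2
  rw [e1, e2]
  have hc : 0 ≤ (ψ (zt x) (wt x) - ψ (zt y) (wt y)) ^ 2 / 2 := by positivity
  have hre : 0 ≤ (eta (zt x) (wt x) (zt y) (wt y)).re := by
    rw [re_eta]
    have : 0 ≤ ∑ i, ‖zt x i - zt y i‖ ^ 2 := Finset.sum_nonneg fun _ _ => by positivity
    linarith
  have hl := hψ (zt x) (wt x) (zt y) (wt y) hpx hpy
  have h1 := norm_le_norm_add hre hc
  have h2 : ‖eta (zt x) (wt x) (zt y) (wt y) +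
      (((ψ (zt x) (wt x) - ψ (zt y) (wt y)) ^ 2 / 2 : ℝ) : Hq)‖ ≤
      2 * ‖eta (zt x) (wt x) (zt y) (wt y)‖ := by
    refine (norm_add_le _ _).trans ?_
    rw [Cx.norm_coe, Real.norm_of_nonneg hc]
    linarith
  have hpp := mul_pos hpx hpy
  constructor
  · apply div_le_div_of_nonneg_right _ hpp.le
    exact pow_le_pow_left₀ (norm_nonneg _) h1 2
  · rw [← mul_div_assoc]
    apply div_le_div_of_nonneg_right _ hpp.le
    calc _ ≤ (2 * ‖eta (zt x) (wt x) (zt y) (wt y)‖) ^ 2 :=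
          pow_le_pow_left₀ (norm_nonneg _) h2 2
      _ = _ := by ring

end Pool.Agent.CExotic
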