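import Pool.Agent.Lib_MP_f019fe_gt.Vec

set_option autoImplicit false

/-! Null vectors attached to the boundary points, all target dimensions. -/

namespace Pool.Agent.HExotic

open Filter Topology

/-- adding `r` zero coordinates -/
noncomputable def pad {n : ℕ} (r : ℕ) (x : Fin n → Hq) : Fin (n + r) → Hq :=
  Fin.append x (fun _ : Fin r => (0 : Hq))

theorem hf_pad {n : ℕ} (r : ℕ) (x y : Fin n → Hq) : hf (pad r x) (pad r y) = hf x y := by
  unfold hf pad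
  rw [Fin.sum_univ_add]
  simp only [Fin.append_left, Fin.append_right, mul_zero, Finset.sum_const_zero, add_zero]

theorem dl_pad {n : ℕ} (r : ℕ) (x : Fin n → Hq) : dl (pad r x) = dl x := by
  unfold dl pad
  rw [Fin.sum_univ_add]
  simp only [Fin.append_left, Fin.append_right, norm_zero, ne_eq, OfNat.ofNat_ne_zero,
    not_false_eq_true, zero_pow, Finset.sum_const_zero, add_zero]

theorem tendsto_pad {n : ℕ} (r : ℕ) {a : ℕ → Fin n → Hq} {A : Fin n → Hq}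
    (h : Tendsto a atTop (𝓝 A)) : Tendsto (fun k => pad r (a k)) atTop (𝓝 (pad r A)) := by
  rw [tendsto_pi_nhds]
  intro i
  refine Fin.addCases (fun j => ?_) (fun j => ?_) i
  · simp only [pad, Fin.append_left]
    exact tendsto_pi_nhds.1 h j
  · simp only [pad, Fin.append_right]
    exact tendsto_const_nhds

theorem boundary_vectors_pad {m : ℕ} (r : ℕ) (ψ : (Fin m → Hq) → Hq → ℝ)
    (hc : ∀ ζ, Continuous (ψ ζ))
    (g : (Fin (m + 1) → Hq) → (Fin (m + 1 + 1 + r) → Hq)) (hgb : ∀ x, 0 < dl x → 0 < dl (g x))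
    (hg : ∀ x y, 0 < dl x → 0 < dl y → Dq (g x) (g y) = Dq x y) (R : ℝ)
    (hR : ∀ x, 0 < dl x → ∃ y, 0 < dl y ∧ Dq (pad r (fmap m ψ x)) (g y) ≤ R) : HasVec ψ := by
  obtain ⟨b, ν, hν, hb, hrel⟩ := limit_lemma (fun x => pad r (fmap m ψ x)) g
    (fun x hx => by rw [dl_pad]; exact fmap_ball ψ hx) hgb hg R hR
    (seqx (m := m)) seqx_ball (fun i => pad r (limx ψ i))
    (fun p => tendsto_pad r (tendsto_seqx ψ hc p)) (fun p => by rw [dl_pad]; exact dl_limx ψ p)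
  simp only [hf_pad] at hrel
  have N1 : ∀ i j, ‖hf (limx ψ i) (limx ψ j)‖ =
      Real.sqrt (ν i) * Real.sqrt (ν j) * ‖hf (b i) (b j)‖ := by
    intro i j
    have h1 := hrel i j
    have h2 : (Real.sqrt (ν i) * Real.sqrt (ν j) * ‖hf (b i) (b j)‖) ^ 2 =
        ν i * ν j * ‖hf (b i) (b j)‖ ^ 2 := by
      rw [mul_pow, mul_pow, Real.sq_sqrt (hν i).le, Real.sq_sqrt (hν j).le]
    rw [← h2] at h1
    exact (pow_left_inj₀ (norm_nonneg _) (by positivity) two_ne_zero).1 h1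
  have hbb : ∀ i, hf (b i) (b i) = 0 := by
    intro i; rw [hf_self, hb i]; rfl
  -- the scale
  have hUne : ∀ (ζ : Fin m → Hq) (s : ℝ),
      0 < ‖Uq (wb ζ s + ((ψ ζ (wb ζ s) ^ 2 : ℝ) : Hq))‖ := by
    intro ζ s
    exact norm_pos_iff.2 (Uq_ne_zero (ne_add (ζ := ζ) _ (by rw [wb_re]; simp)))
  obtain ⟨u, hu⟩ : ∃ u : (Fin m → Hq) → ℝ → ℝ, ∀ ζ s,
      u ζ s = ‖Uq (wb ζ s + ((ψ ζ (wb ζ s) ^ 2 : ℝ) : Hq))‖ := ⟨_, fun _ _ => rfl⟩
  have hupos : ∀ ζ s, 0 < u ζ s := fun ζ s => by rw [hu]; exact hUne ζ s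
  obtain ⟨κ, hκ⟩ : ∃ κ : (Fin m → Hq) → ℝ → ℝ, ∀ ζ s,
      κ ζ s = Real.sqrt (ν (some (ζ, s))) / u ζ s := ⟨_, fun _ _ => rfl⟩
  have hκpos : ∀ ζ s, 0 < κ ζ s := fun ζ s => by
    rw [hκ]; exact div_pos (Real.sqrt_pos.2 (hν _)) (hupos ζ s)
  obtain ⟨P, hP⟩ : ∃ P, P = lft (b none) ((Real.sqrt (ν none) : ℝ) : Hq) := ⟨_, rfl⟩
  obtain ⟨z, hz⟩ : ∃ z : (Fin m → Hq) → ℝ → Hq, ∀ ζ s,
      z ζ s = form P (lft (b (some (ζ, s))) ((κ ζ s : ℝ) : Hq)) := ⟨_, fun _ _ => rfl⟩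
  have hz1 : ∀ ζ s, ‖z ζ s‖ = 1 := by
    intro ζ s
    have h1 := N1 none (some (ζ, s))
    have h2 : hf (limx ψ none) (limx ψ (some (ζ, s))) =
        Uq (wb ζ s + ((ψ ζ (wb ζ s) ^ 2 : ℝ) : Hq)) := hf_ainf_sieg _ _
    rw [h2, ← hu] at h1
    rw [hz, hP, form_lft, norm_mul, norm_mul, Quaternion.norm_star, Quaternion.norm_coe,
      Quaternion.norm_coe, Real.norm_of_nonneg (Real.sqrt_nonneg _),
      Real.norm_of_nonneg (hκpos ζ s).le, hκ]
    have := hupos ζ s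
    field_simp
    linarith
  have hz0 : ∀ ζ s, z ζ s ≠ 0 := fun ζ s => by
    rw [← norm_ne_zero_iff, hz1]; exact one_ne_zero
  refine ⟨P, fun ζ s => lft (b (some (ζ, s))) (((κ ζ s : ℝ) : Hq) * (z ζ s)⁻¹), ?_, ?_, ?_, ?_⟩
  · rw [hP, form_lft, hbb]; simp
  · intro ζ s
    rw [form_lft, hbb]; simp
  · intro ζ s
    have h1 := hz ζ s
    rw [hP, form_lft] at h1
    rw [hP, form_lft, ← mul_assoc, ← h1]
    exact mul_inv_cancel₀ (hz0 ζ s)
  · intro ζ s ζ' s'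
    rw [form_lft, norm_mul, norm_mul, Quaternion.norm_star, norm_mul, norm_mul, norm_inv, norm_inv,
      hz1, hz1, Quaternion.norm_coe, Quaternion.norm_coe, Real.norm_of_nonneg (hκpos ζ s).le,
      Real.norm_of_nonneg (hκpos ζ' s').le, hκ, hκ]
    have h1 := N1 (some (ζ, s)) (some (ζ', s'))
    have h0 : (0 : ℝ) ≤ (wb ζ s).re - nn ζ := by rw [wb_re]; simp
    have h0' : (0 : ℝ) ≤ (wb ζ' s').re - nn ζ' := by rw [wb_re]; simp
    have h2 : hf (limx ψ (some (ζ, s))) (limx ψ (some (ζ', s'))) = _ :=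
      hf_sieg (k := m + 1) _ _ _ _ (ne_add _ h0) (ne_add _ h0')
    dsimp only at h2
    rw [eta_snoc] at h2
    rw [h2, norm_mul, norm_mul, Quaternion.norm_star, ← hu, ← hu] at h1
    have := hupos ζ s
    have := hupos ζ' s'
    simp only [inv_one, mul_one]
    field_simp
    linarith

end Pool.Agent.HExotic
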